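import Mathlib

/-! The coefficients of `(y - x) / ((1 - x y) (1 - x - y))` and their behaviour under
`x ↦ 1 - x`, `y ↦ 1 - y`. -/

set_option autoImplicit false

namespace Pool.Agent.R113.OS

open MvPowerSeries

/-- the power series `(y - x) / ((1 - x y) (1 - x - y))`, with `x = X 0` and `y = X 1` -/
noncomputable def G : MvPowerSeries (Fin 2) ℚ :=
  (X 1 - X 0) * ((1 - X 0 * X 1) * (1 - X 0 - X 1))⁻¹

/-- exponents -/
noncomputable def e (a b : ℕ) : Fin 2 →₀ ℕ := Finsupp.single 0 a + Finsupp.single 1 b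

/-- `c a b` is the coefficient of `x^a y^b` in `(y - x) / ((1 - x y) (1 - x - y))` -/
noncomputable def c (a b : ℕ) : ℚ := coeff (e a b) G

theorem e_zero (a b : ℕ) : e a b 0 = a := by simp [e]
theorem e_one (a b : ℕ) : e a b 1 = b := by simp [e]

theorem e_le (i j a b : ℕ) : e i j ≤ e a b ↔ i ≤ a ∧ j ≤ b := by
  constructor
  · intro h
    exact ⟨by simpa [e_zero] using h 0, by simpa [e_one] using h 1⟩
  · rintro ⟨h1, h2⟩ k
    fin_cases k
    · simpa [e_zero] using h1
    · simpa [e_one] using h2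

theorem e_sub (i j a b : ℕ) : e a b - e i j = e (a - i) (b - j) := by
  ext k
  fin_cases k
  · simp [e]
  · simp [e]

theorem e_inj (i j a b : ℕ) : e i j = e a b ↔ i = a ∧ j = b := by
  constructor
  · intro h
    exact ⟨by simpa [e_zero] using DFunLike.congr_fun h 0,
      by simpa [e_one] using DFunLike.congr_fun h 1⟩
  · rintro ⟨rfl, rfl⟩
    rfl

theorem hX0 : (X 0 : MvPowerSeries (Fin 2) ℚ) = monomial (e 1 0) 1 := by
  simp [X, e]

theorem hX1 : (X 1 : MvPowerSeries (Fin 2) ℚ) = monomial (e 0 1) 1 := by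
  simp [X, e]

theorem e_add (a b i j : ℕ) : e a b + e i j = e (a + i) (b + j) := by
  ext k
  fin_cases k
  · simp [e]
  · simp [e]

theorem mono_mul (a b i j : ℕ) : (monomial (e a b) (1 : ℚ)) * monomial (e i j) 1 =
    monomial (e (a + i) (b + j)) 1 := by
  rw [monomial_mul_monomial, one_mul, e_add]

theorem G_mul : G * (1 - monomial (e 1 0) 1 - monomial (e 0 1) 1 - monomial (e 1 1) 1 +
    monomial (e 2 1) 1 + monomial (e 1 2) 1) = monomial (e 0 1) 1 - monomial (e 1 0) 1 := by
  have h : (1 - monomial (e 1 0) 1 - monomial (e 0 1) 1 - monomial (e 1 1) 1 +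
    monomial (e 2 1) 1 + monomial (e 1 2) 1 : MvPowerSeries (Fin 2) ℚ) =
      (1 - X 0 * X 1) * (1 - X 0 - X 1) := by
    rw [hX0, hX1]
    have h1 := mono_mul 1 0 0 1
    have h2 := mono_mul 1 1 1 0
    have h3 := mono_mul 1 1 0 1
    norm_num at h1 h2 h3
    rw [← h2, ← h3, ← h1]
    ring
  have hc : constantCoeff ((1 - X 0 * X 1) * (1 - X 0 - X 1) : MvPowerSeries (Fin 2) ℚ) ≠ 0 := by
    simp
  rw [h, G, mul_assoc, MvPowerSeries.inv_mul_cancel _ hc, mul_one, hX0, hX1]

theorem rec_gen (a b : ℕ) :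
    c a b - (if 1 ≤ a then c (a - 1) b else 0) - (if 1 ≤ b then c a (b - 1) else 0)
      - (if 1 ≤ a ∧ 1 ≤ b then c (a - 1) (b - 1) else 0)
      + (if 2 ≤ a ∧ 1 ≤ b then c (a - 2) (b - 1) else 0)
      + (if 1 ≤ a ∧ 2 ≤ b then c (a - 1) (b - 2) else 0) =
      (if a = 0 ∧ b = 1 then 1 else 0) - (if a = 1 ∧ b = 0 then 1 else 0) := by
  have h := congrArg (coeff (e a b)) G_mul
  rw [mul_add, mul_add, mul_sub, mul_sub, mul_sub, mul_one, map_add, map_add, map_sub, map_sub,
    map_sub, map_sub, coeff_mul_monomial, coeff_mul_monomial, coeff_mul_monomial,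
    coeff_mul_monomial, coeff_mul_monomial] at h
  simp only [e_le, e_sub, mul_one, Nat.zero_le, true_and, and_true, Nat.sub_zero,
    coeff_monomial, e_inj] at h
  exact h

theorem c00 : c 0 0 = 0 := by simpa using rec_gen 0 0
theorem c01 : c 0 1 = 1 := by
  have := rec_gen 0 1
  simp [c00] at this
  exact this
theorem c10 : c 1 0 = -1 := by
  have := rec_gen 1 0
  simp [c00] at this
  exact this
theorem c0s (b : ℕ) : c 0 (b + 1) = 1 := by
  induction b with
  | zero => exact c01
  | succ b ih =>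
    have := rec_gen 0 (b + 2)
    simp at this
    have h2 : c 0 (b + 2) = c 0 (b + 1) := by linarith
    rw [show b + 1 + 1 = b + 2 from rfl, h2, ih]
theorem cs0 (a : ℕ) : c (a + 1) 0 = -1 := by
  induction a with
  | zero => exact c10
  | succ b ih =>
    have := rec_gen (b + 2) 0
    simp at this
    have h2 : c (b + 2) 0 = c (b + 1) 0 := by linarith
    rw [show b + 1 + 1 = b + 2 from rfl, h2, ih]
theorem c11 : c 1 1 = 0 := by
  have := rec_gen 1 1
  simp [c00, c01, c10] at this
  linarith
theorem c1s (b : ℕ) : c 1 (b + 2) = b + 2 := by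
  induction b with
  | zero =>
    have := rec_gen 1 2
    simp [c00, c0s, c11] at this
    norm_num
    linarith
  | succ b ih =>
    have := rec_gen 1 (b + 3)
    simp [c0s] at this
    have h2 := c0s (b + 2)
    have h3 := c0s (b + 1)
    rw [show b + 2 + 1 = b + 3 from rfl] at h2
    rw [show b + 1 + 1 = b + 2 from rfl] at h3
    rw [show b + 1 + 2 = b + 3 from rfl]
    rw [ih] at this
    push_cast
    linarith
theorem cs1 (a : ℕ) : c (a + 2) 1 = -(a + 2) := by
  induction a with
  | zero =>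
    have := rec_gen 2 1
    have h2 := cs0 1
    norm_num at h2
    simp [c00, c11, h2, c10] at this
    norm_num
    linarith
  | succ b ih =>
    have := rec_gen (b + 3) 1
    have h2 := cs0 (b + 2)
    have h3 := cs0 (b + 1)
    have h4 := cs0 b
    rw [show b + 2 + 1 = b + 3 from rfl] at h2
    rw [show b + 1 + 1 = b + 2 from rfl] at h3
    simp [h2, h3, h4, ih] at this
    rw [show b + 1 + 2 = b + 3 from rfl]
    push_cast
    linarith

theorem rec_ss (a b : ℕ) : c (a + 2) (b + 2) = c (a + 1) (b + 2) + c (a + 2) (b + 1)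
    + c (a + 1) (b + 1) - c a (b + 1) - c (a + 1) b := by
  have := rec_gen (a + 2) (b + 2)
  simp at this
  linarith

theorem skew (a b : ℕ) : c b a = - c a b := by
  induction a using Nat.twoStepInduction generalizing b with
  | zero =>
    rcases b with _ | b
    · simp [c00]
    · rw [cs0, c0s]
  | one =>
    rcases b with _ | _ | b
    · rw [c01, c10]; norm_num
    · rw [c11]; norm_num
    · rw [cs1, c1s]
  | more a ih0 ih1 =>
    induction b using Nat.twoStepInduction with
    | zero => rw [c0s, cs0]; norm_num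
    | one => rw [c1s, cs1]; ring
    | more b jh0 jh1 =>
      have h1 := ih1 (b + 2)
      have h2 := ih1 (b + 1)
      have h3 := ih0 (b + 1)
      have h4 := ih1 b
      rw [rec_ss, rec_ss]
      linear_combination h1 + jh1 + h2 - h3 - h4

end Pool.Agent.R113.OS
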