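import Pool.Agent.R113.OS.Coef

/-! The bilinear form `B (x^a, y^b) = c a b` on polynomials is anti-invariant under the
substitution `x ↦ 1 - x`, `y ↦ 1 - y`. -/

set_option autoImplicit false

namespace Pool.Agent.R113.OS

open Polynomial

noncomputable def L (s : ℕ → ℚ) : ℚ[X] →ₗ[ℚ] ℚ := (Polynomial.basisMonomials ℚ).constr ℚ s

theorem L_pow (s : ℕ → ℚ) (n : ℕ) : L s (X ^ n) = s n := by
  have h := (Polynomial.basisMonomials ℚ).constr_basis ℚ s n
  rw [Polynomial.coe_basisMonomials] at h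
  rw [← Polynomial.monomial_one_right_eq_X_pow]
  exact h

noncomputable def B : ℚ[X] →ₗ[ℚ] ℚ[X] →ₗ[ℚ] ℚ :=
  (Polynomial.basisMonomials ℚ).constr ℚ (fun a => L (c a))

theorem B_pow (a b : ℕ) : B (X ^ a) (X ^ b) = c a b := by
  have h := (Polynomial.basisMonomials ℚ).constr_basis ℚ (fun a => L (c a)) a
  rw [Polynomial.coe_basisMonomials] at h
  rw [← Polynomial.monomial_one_right_eq_X_pow a]
  have h2 : B (monomial a 1) = L (c a) := h
  rw [h2, L_pow]

/-- two bilinear forms which agree on powers agree -/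
theorem ext2 {F H : ℚ[X] →ₗ[ℚ] ℚ[X] →ₗ[ℚ] ℚ} (h : ∀ a b : ℕ, F (X ^ a) (X ^ b) = H (X ^ a) (X ^ b)) :
    F = H := by
  apply Polynomial.lhom_ext'
  intro a
  apply LinearMap.ext
  intro u
  apply Polynomial.lhom_ext'
  intro b
  apply LinearMap.ext
  intro v
  simp only [LinearMap.comp_apply]
  rw [← mul_one u, ← mul_one v, ← smul_eq_mul u, ← smul_eq_mul v, ← Polynomial.smul_monomial,
    ← Polynomial.smul_monomial, Polynomial.monomial_one_right_eq_X_pow,
    Polynomial.monomial_one_right_eq_X_pow]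
  simp only [map_smul, LinearMap.smul_apply, h]

theorem ext1 {F H : ℚ[X] →ₗ[ℚ] ℚ} (h : ∀ a : ℕ, F (X ^ a) = H (X ^ a)) : F = H := by
  apply Polynomial.lhom_ext'
  intro a
  apply LinearMap.ext
  intro u
  simp only [LinearMap.comp_apply]
  rw [← mul_one u, ← smul_eq_mul u, ← Polynomial.smul_monomial,
    Polynomial.monomial_one_right_eq_X_pow]
  simp only [map_smul, h]

theorem B_skew (p q : ℚ[X]) : B q p = - B p q := by
  have h : B.flip = - B := by
    apply ext2
    intro a b
    rw [LinearMap.flip_apply, LinearMap.neg_apply, LinearMap.neg_apply, B_pow, B_pow, skew]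
  have := congrArg (fun F => F p q) h
  simpa using this

/-- multiplication by `X` -/
noncomputable def mX : ℚ[X] →ₗ[ℚ] ℚ[X] := LinearMap.mulLeft ℚ X

theorem B_rel (p q : ℚ[X]) : B (X ^ 2 * p) (X ^ 2 * q) = B (X * p) (X ^ 2 * q)
    + B (X ^ 2 * p) (X * q) + B (X * p) (X * q) - B p (X * q) - B (X * p) q := by
  have h : (B.compl₁₂ (mX ∘ₗ mX) (mX ∘ₗ mX)) = B.compl₁₂ mX (mX ∘ₗ mX) + B.compl₁₂ (mX ∘ₗ mX) mX
      + B.compl₁₂ mX mX - B.compl₁₂ LinearMap.id mX - B.compl₁₂ mX LinearMap.id := by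
    apply ext2
    intro a b
    simp only [LinearMap.compl₁₂_apply, LinearMap.sub_apply, LinearMap.add_apply,
      LinearMap.comp_apply, mX, LinearMap.mulLeft_apply, LinearMap.id_apply, ← pow_succ', B_pow]
    exact rec_ss a b
  have := congrArg (fun F => F p q) h
  simp only [LinearMap.compl₁₂_apply, LinearMap.sub_apply, LinearMap.add_apply,
      LinearMap.comp_apply, mX, LinearMap.mulLeft_apply, LinearMap.id_apply] at this
  rw [sq, mul_assoc, mul_assoc]
  exact this

theorem B_one (q : ℚ[X]) : B 1 q = q.eval 1 - q.eval 0 := by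
  have h : B (X ^ 0) = Polynomial.leval 1 - Polynomial.leval 0 := by
    apply ext1
    intro b
    rw [B_pow, LinearMap.sub_apply, Polynomial.leval_apply, Polynomial.leval_apply]
    rcases b with _ | b
    · simp [c00]
    · simp [c0s]
  have := congrArg (fun F => F q) h
  simpa using this

theorem B_X (q : ℚ[X]) : B X q = q.derivative.eval 1 - q.derivative.eval 0 - q.eval 0 := by
  have h : B (X ^ 1) = Polynomial.leval 1 ∘ₗ Polynomial.derivative
      - Polynomial.leval 0 ∘ₗ Polynomial.derivative - Polynomial.leval 0 := by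
    apply ext1
    intro b
    rw [B_pow, LinearMap.sub_apply, LinearMap.sub_apply, LinearMap.comp_apply,
      LinearMap.comp_apply, Polynomial.leval_apply, Polynomial.leval_apply,
      Polynomial.leval_apply]
    rcases b with _ | _ | b
    · simp [c10]
    · simp [c11]
    · simp [c1s]
      ring
  have := congrArg (fun F => F q) h
  simpa using this

/-- the form on powers of `1 - X` -/
noncomputable def f (a b : ℕ) : ℚ := B ((1 - X) ^ a) ((1 - X) ^ b)

theorem f_skew (a b : ℕ) : f b a = - f a b := B_skew _ _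

theorem f_zero (b : ℕ) : f 0 b = - c 0 b := by
  rw [f, pow_zero, B_one]
  rcases b with _ | b
  · simp [c00]
  · simp [c0s]

theorem f_one (b : ℕ) : f 1 b = - c 1 b := by
  have h0 : B ((1 - X) ^ 1) ((1 - X) ^ b) = B 1 ((1 - X) ^ b) - B X ((1 - X) ^ b) := by
    rw [pow_one, map_sub, LinearMap.sub_apply]
  rw [f, h0, B_one, B_X]
  rcases b with _ | _ | b
  · simp [c10]
  · simp [c11]
  · simp [c1s, Polynomial.derivative_pow]
    ring

theorem f_rec (a b : ℕ) : f (a + 2) (b + 2) = f (a + 1) (b + 2) + f (a + 2) (b + 1)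
    + f (a + 1) (b + 1) - f a (b + 1) - f (a + 1) b := by
  have h := B_rel ((1 - X) ^ a) ((1 - X) ^ b)
  have h1 : ∀ n : ℕ, ((1 - X) ^ (n + 1) : ℚ[X]) = (1 - X) ^ n - X * (1 - X) ^ n := by
    intro n; ring
  have h2 : ∀ n : ℕ, ((1 - X) ^ (n + 2) : ℚ[X]) =
      (1 - X) ^ n - (2 : ℚ) • (X * (1 - X) ^ n) + X ^ 2 * (1 - X) ^ n := by
    intro n
    rw [Polynomial.smul_eq_C_mul]
    have : (C (2 : ℚ) : ℚ[X]) = 2 := rfl
    rw [this]
    ring
  unfold f
  rw [h2 a, h2 b, h1 a, h1 b]
  simp only [map_sub, map_add, map_smul, LinearMap.sub_apply, LinearMap.add_apply,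
    LinearMap.smul_apply, smul_eq_mul]
  linear_combination h

/-- **anti-invariance** -/
theorem f_eq (a b : ℕ) : f a b = - c a b := by
  induction a using Nat.twoStepInduction generalizing b with
  | zero => exact f_zero b
  | one => exact f_one b
  | more a ih0 ih1 =>
    induction b using Nat.twoStepInduction with
    | zero => rw [f_skew, f_zero, skew]; ring
    | one => rw [f_skew, f_one, skew]; ring
    | more b jh0 jh1 =>
      rw [f_rec, rec_ss, ih1 (b + 2), jh1, ih1 (b + 1), ih0 (b + 1), ih1 b]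
      ring

/-- the substitution matrix -/
noncomputable def T (a b : ℕ) : ℚ := ((1 - X : ℚ[X]) ^ a).coeff b

theorem T_deg (a : ℕ) : ((1 - X : ℚ[X]) ^ a).natDegree ≤ a := by
  refine (Polynomial.natDegree_pow_le).trans ?_
  have : (1 - X : ℚ[X]).natDegree ≤ 1 := by
    refine (Polynomial.natDegree_sub_le _ _).trans ?_
    simp
  nlinarith

theorem T_upper (a b : ℕ) (h : a < b) : T a b = 0 :=
  Polynomial.coeff_eq_zero_of_natDegree_lt (lt_of_le_of_lt (T_deg a) h)

theorem T_diag (a : ℕ) : T a a = (-1) ^ a := by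
  have h : (1 - X : ℚ[X]) = C (-1) * X + C 1 := by
    simp
    ring
  have h2 : ((1 - X : ℚ[X]) ^ a).coeff (a * 1) = ((1 - X : ℚ[X]).coeff 1) ^ a := by
    apply Polynomial.coeff_pow_of_natDegree_le
    rw [h]
    exact Polynomial.natDegree_linear_le
  rw [mul_one] at h2
  rw [T, h2]
  simp [Polynomial.coeff_one]

theorem T_sum (N a : ℕ) (h : a < N) : ((1 - X : ℚ[X]) ^ a) = ∑ i : Fin N, T a i • X ^ (i : ℕ) := by
  rw [Polynomial.as_sum_range' ((1 - X : ℚ[X]) ^ a) N (lt_of_le_of_lt (T_deg a) h),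
    ← Fin.sum_univ_eq_sum_range (fun i => monomial i (((1 - X : ℚ[X]) ^ a).coeff i)) N]
  apply Finset.sum_congr rfl
  intro i _
  rw [← Polynomial.C_mul_X_pow_eq_monomial, T, Polynomial.smul_eq_C_mul]

theorem T_eval (N a : ℕ) (h : a < N) (u : ℚ) : ∑ i : Fin N, T a i * u ^ (i : ℕ) = (1 - u) ^ a := by
  have := congrArg (Polynomial.eval u) (T_sum N a h)
  simp [Polynomial.eval_finsetSum] at this
  rw [← this]

theorem TCT (N a b : ℕ) (ha : a < N) (hb : b < N) :
    ∑ i : Fin N, ∑ j : Fin N, T a i * c i j * T b j = - c a b := by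
  rw [← f_eq a b, f, T_sum N a ha, T_sum N b hb]
  simp only [map_sum, LinearMap.sum_apply, map_smul, LinearMap.smul_apply, smul_eq_mul, B_pow]
  rw [Finset.sum_comm]
  apply Finset.sum_congr rfl
  intro j _
  rw [Finset.mul_sum]
  apply Finset.sum_congr rfl
  intro i _
  ring

end Pool.Agent.R113.OS
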